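import Pool.Agent.W282.EZ.Stm

/-!
Relations up to signs between several points of `y ^ 2 = x ^ 3 + A x + B` are given by one
polynomial in `A`, `B` and the homogeneous `x`-coordinates of the points.
-/

open MvPolynomial Pool.Agent.W282.EZ

namespace Pool.Agent.W591.EZ

/-- Power sums `(U V') ^ k + (U' V) ^ k` as forms in `V V'`, `U V' + U' V`, `U U'`. -/
lemma lucas (k : ℕ) : ∃ L : MvPolynomial (Fin 3) ℤ, L.IsHomogeneous k ∧
    ∀ (K : Type) [CommRing K] (U V U' V' : K),
      aeval ![V * V', U * V' + U' * V, U * U'] L = (U * V') ^ k + (U' * V) ^ k := by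
  induction k using Nat.twoStepInduction with
  | zero =>
    refine ⟨C 2, isHomogeneous_C _ _, fun K _ U V U' V' => ?_⟩
    rw [pow_zero, pow_zero, aeval_C]
    simp only [algebraMap_int_eq, eq_intCast, Int.cast_ofNat]
    norm_num
  | one =>
    refine ⟨X 1, isHomogeneous_X _ _, fun K _ U V U' V' => ?_⟩
    rw [pow_one, pow_one, aeval_X]
    rfl
  | more k h0 h1 =>
    obtain ⟨L0, hL0, e0⟩ := h0
    obtain ⟨L1, hL1, e1⟩ := h1
    refine ⟨X 1 * L1 - X 0 * X 2 * L0, ?_, fun K _ U V U' V' => ?_⟩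
    · refine IsHomogeneous.sub ?_ ?_
      · have h := (isHomogeneous_X ℤ (1 : Fin 3)).mul hL1
        rwa [show 1 + (k + 1) = k + 2 by ring] at h
      · have h := ((isHomogeneous_X ℤ (0 : Fin 3)).mul (isHomogeneous_X ℤ (2 : Fin 3))).mul hL0
        rwa [show 1 + 1 + k = k + 2 by ring] at h
    · rw [map_sub, map_mul, map_mul, map_mul, e0, e1, aeval_X, aeval_X, aeval_X]
      change (U * V' + U' * V) * _ - (V * V') * (U * U') * _ = _
      ring

/-- The symmetrization of a product of two monomials. -/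
lemma pair (i k l : ℕ) : ∃ M : MvPolynomial (Fin 3) ℤ, M.IsHomogeneous (i + k + l) ∧
    ∀ (K : Type) [CommRing K] (U V U' V' : K),
      aeval ![V * V', U * V' + U' * V, U * U'] M =
        U ^ i * V ^ (k + l) * (U' ^ (i + k) * V' ^ l) +
          U ^ (i + k) * V ^ l * (U' ^ i * V' ^ (k + l)) := by
  obtain ⟨L, hL, e⟩ := lucas k
  refine ⟨X 2 ^ i * L * X 0 ^ l, ?_, fun K _ U V U' V' => ?_⟩
  · have h := ((isHomogeneous_X_pow (R := ℤ) (2 : Fin 3) i).mul hL).mul
      (isHomogeneous_X_pow (R := ℤ) (0 : Fin 3) l)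
    exact h
  · rw [map_mul, map_mul, map_pow, map_pow, e, aeval_X, aeval_X]
    change (U * U') ^ i * _ * (V * V') ^ l = _
    ring

lemma pair' (d : ℕ) (s t : Fin 2 →₀ ℕ) (hs : s 0 + s 1 = d) (ht : t 0 + t 1 = d) :
    ∃ M : MvPolynomial (Fin 3) ℤ, M.IsHomogeneous d ∧
      ∀ (K : Type) [CommRing K] (U V U' V' : K),
        aeval ![V * V', U * V' + U' * V, U * U'] M =
          U ^ s 0 * V ^ s 1 * (U' ^ t 0 * V' ^ t 1) +
            U ^ t 0 * V ^ t 1 * (U' ^ s 0 * V' ^ s 1) := by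
  rcases le_total (s 0) (t 0) with h | h
  · obtain ⟨M, hM, e⟩ := pair (s 0) (t 0 - s 0) (t 1)
    have h1 : s 0 + (t 0 - s 0) = t 0 := by omega
    have h2 : t 0 - s 0 + t 1 = s 1 := by omega
    refine ⟨M, ?_, fun K _ U V U' V' => ?_⟩
    · rwa [h1, ht] at hM
    · rw [e, h1, h2]
  · obtain ⟨M, hM, e⟩ := pair (t 0) (s 0 - t 0) (s 1)
    have h1 : t 0 + (s 0 - t 0) = s 0 := by omega
    have h2 : s 0 - t 0 + s 1 = t 1 := by omega
    refine ⟨M, ?_, fun K _ U V U' V' => ?_⟩
    · rwa [h1, hs] at hM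
    · rw [e, h1, h2]
      ring

/-- The norm form: the product of the values of a binary form at two points. -/
lemma normForm {R : Type} [CommRing R] (d : ℕ) (α : (Fin 2 →₀ ℕ) → R)
    (S : Finset (Fin 2 →₀ ℕ)) : (∀ s ∈ S, s 0 + s 1 = d) →
    ∃ N : MvPolynomial (Fin 3) R, N.IsHomogeneous d ∧
      ∀ (K : Type) [CommRing K] (φ : R →+* K) (U V U' V' : K),
        eval₂ φ ![V * V', U * V' + U' * V, U * U'] N =
          (∑ s ∈ S, φ (α s) * (U ^ s 0 * V ^ s 1)) *
            (∑ s ∈ S, φ (α s) * (U' ^ s 0 * V' ^ s 1)) := by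
  classical
  induction S using Finset.induction_on with
  | empty =>
    intro _
    exact ⟨0, isHomogeneous_zero _ _ _, fun K _ φ U V U' V' => by simp⟩
  | insert t S ht ih =>
    intro hS
    obtain ⟨N, hN, eN⟩ := ih fun s hs => hS s (Finset.mem_insert_of_mem hs)
    have htd : t 0 + t 1 = d := hS t (Finset.mem_insert_self _ _)
    have hp : ∀ s : Fin 2 →₀ ℕ, ∃ M : MvPolynomial (Fin 3) ℤ, s ∈ S → M.IsHomogeneous d ∧
      ∀ (K : Type) [CommRing K] (U V U' V' : K),
        aeval ![V * V', U * V' + U' * V, U * U'] M =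
          U ^ s 0 * V ^ s 1 * (U' ^ t 0 * V' ^ t 1) +
            U ^ t 0 * V ^ t 1 * (U' ^ s 0 * V' ^ s 1) := by
      intro s
      by_cases hs : s ∈ S
      · obtain ⟨M, hM⟩ := pair' d s t (hS s (Finset.mem_insert_of_mem hs)) htd
        exact ⟨M, fun _ => hM⟩
      · exact ⟨0, fun h => absurd h hs⟩
    choose M hM using hp
    refine ⟨N + C (α t ^ 2) * (X 2 ^ t 0 * X 0 ^ t 1) +
      ∑ s ∈ S, C (α s * α t) * map (Int.castRingHom R) (M s), ?_, fun K _ φ U V U' V' => ?_⟩
    · refine (hN.add ?_).add (IsHomogeneous.sum _ _ _ fun s hs => ?_)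
      · have h := (isHomogeneous_X_pow (R := R) (2 : Fin 3) (t 0)).mul
          (isHomogeneous_X_pow (R := R) (0 : Fin 3) (t 1))
        rw [htd] at h
        have h2 := (isHomogeneous_C (Fin 3) (α t ^ 2)).mul h
        rwa [zero_add] at h2
      · have h2 := (isHomogeneous_C (Fin 3) (α s * α t)).mul
          ((hM s hs).1.map (Int.castRingHom R))
        rwa [zero_add] at h2
    · have hc : ∀ s ∈ S, eval₂ φ ![V * V', U * V' + U' * V, U * U']
          (map (Int.castRingHom R) (M s)) = U ^ s 0 * V ^ s 1 * (U' ^ t 0 * V' ^ t 1) +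
            U ^ t 0 * V ^ t 1 * (U' ^ s 0 * V' ^ s 1) := by
        intro s hs
        rw [← (hM s hs).2 K U V U' V', eval₂_map, aeval_def]
        congr 1
        exact RingHom.ext_int _ _
      rw [eval₂_add, eval₂_add, eN, eval₂_sum, Finset.sum_insert ht, Finset.sum_insert ht,
        eval₂_mul, eval₂_mul, eval₂_pow, eval₂_pow, eval₂_C, eval₂_X, eval₂_X]
      have h3 : ∑ s ∈ S, eval₂ φ ![V * V', U * V' + U' * V, U * U']
          (C (α s * α t) * map (Int.castRingHom R) (M s)) =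
          (∑ s ∈ S, φ (α s) * (U ^ s 0 * V ^ s 1)) * (φ (α t) * (U' ^ t 0 * V' ^ t 1)) +
            (φ (α t) * (U ^ t 0 * V ^ t 1)) * ∑ s ∈ S, φ (α s) * (U' ^ s 0 * V' ^ s 1) := by
        rw [Finset.sum_mul, Finset.mul_sum, ← Finset.sum_add_distrib]
        refine Finset.sum_congr rfl fun s hs => ?_
        rw [eval₂_mul, eval₂_C, hc s hs, map_mul]
        ring
      rw [h3, map_pow]
      change _ + φ (α t) ^ 2 * ((U * U') ^ t 0 * (V * V') ^ t 1) + _ = _
      ring

lemma normForm' {R : Type} [CommRing R] (d : ℕ) (G : MvPolynomial (Fin 2) R)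
    (hG : G.IsHomogeneous d) :
    ∃ N : MvPolynomial (Fin 3) R, N.IsHomogeneous d ∧
      ∀ (K : Type) [CommRing K] (φ : R →+* K) (U V U' V' : K),
        eval₂ φ ![V * V', U * V' + U' * V, U * U'] N =
          eval₂ φ ![U, V] G * eval₂ φ ![U', V'] G := by
  obtain ⟨N, hN, e⟩ := normForm d (fun s => G.coeff s) G.support (fun s hs => by
    have h := hG (mem_support_iff.1 hs)
    rw [Finsupp.weight_apply, Finsupp.sum_fintype _ _ (by simp)] at h
    simpa using h)
  refine ⟨N, hN, fun K _ φ U V U' V' => ?_⟩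
  rw [e, eval₂_eq', eval₂_eq']
  simp only [Fin.prod_univ_two]
  rfl

/-- A homogeneous polynomial at a multiple of a vector. -/
lemma eval_smul {R : Type} [CommRing R] {m d : ℕ} (N : MvPolynomial (Fin m) R)
    (hN : N.IsHomogeneous d) (K : Type) [CommRing K] (φ : R →+* K) (c : K) (v : Fin m → K) :
    eval₂ φ (fun i => c * v i) N = c ^ d * eval₂ φ v N := by
  rw [eval₂_eq', eval₂_eq', Finset.mul_sum]
  refine Finset.sum_congr rfl fun s hs => ?_
  have h := hN (mem_support_iff.1 hs)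
  rw [Finsupp.weight_apply, Finsupp.sum_fintype _ _ (by simp)] at h
  have h' : ∑ i, s i = d := by simpa using h
  simp only [mul_pow, Finset.prod_mul_distrib]
  rw [Finset.prod_pow_eq_pow_sum, h']
  ring

/-- The values of the variables. -/
def asg {K : Type} [CommRing K] {n : ℕ} (A B : K) (X Z : Fin n → K) :
    Fin 2 ⊕ Fin n × Fin 2 → K :=
  Sum.elim ![A, B] fun p : Fin n × Fin 2 => if p.2 = 0 then X p.1 else Z p.1

lemma isX_scale {K : Type} [Field K] {A B : K} (T : (cv A B).Point) (U V : K)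
    (h : IsX T U V) : ∃ b : K, b ≠ 0 ∧ U = b * T.xRep 0 ∧ V = b * T.xRep 1 := by
  obtain ⟨h1, h2⟩ := h
  rcases T with _ | ⟨x, y, hxy⟩
  · have hx : (WeierstrassCurve.Affine.Point.zero : (cv A B).Point).xRep = ![1, 0] := rfl
    rw [hx] at h2
    simp only [Matrix.cons_val_one, Matrix.cons_val_zero, mul_zero, mul_one] at h2
    rw [hx]
    refine ⟨U, ?_, by simp, by simp [← h2]⟩
    rcases h1 with h1 | h1
    · exact h1
    · exact absurd h2.symm h1
  · rw [WeierstrassCurve.Affine.Point.xRep_some] at h2 ⊢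
    simp only [Matrix.cons_val_one, Matrix.cons_val_zero, mul_one] at h2
    refine ⟨V, ?_, by simpa using h2, by simp⟩
    rintro rfl
    rw [zero_mul] at h2
    rcases h1 with h1 | h1
    · exact h1 h2
    · exact h1 rfl

lemma isX_self {K : Type} [Field K] {A B : K} (T : (cv A B).Point) :
    IsX T (T.xRep 0) (T.xRep 1) := by
  refine ⟨?_, mul_comm _ _⟩
  by_contra h
  push Not at h
  refine T.xRep_ne_zero ?_
  funext i
  fin_cases i
  · exact h.1
  · exact h.2

lemma isX_zero_iff {K : Type} [Field K] {A B : K} (T : (cv A B).Point) (U V : K)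
    (h : IsX T U V) : V = 0 ↔ T = 0 := by
  obtain ⟨b, hb, h1, h2⟩ := isX_scale T U V h
  rcases T with _ | ⟨x, y, hxy⟩
  · have hx : (WeierstrassCurve.Affine.Point.zero : (cv A B).Point).xRep = ![1, 0] := rfl
    rw [hx] at h2
    exact ⟨fun _ => rfl, fun _ => by simpa using h2⟩
  · rw [WeierstrassCurve.Affine.Point.xRep_some] at h2
    have h3 : V = b := by simpa using h2
    refine ⟨fun h4 => absurd (h3.symm.trans h4) hb, fun h4 => ?_⟩
    exact absurd h4 (by simp)

lemma main (hadd : S_ADDSUB) (n : ℕ) : ∃ (d : ℕ)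
    (G : MvPolynomial (Fin 2) (MvPolynomial (Fin 2 ⊕ Fin n × Fin 2) ℤ)), G.IsHomogeneous d ∧
    ∀ (K : Type) [Field K] [DecidableEq K] [CharZero K] (A B : K)
      (_ : 4 * A ^ 3 + 27 * B ^ 2 ≠ 0)
      (S : Fin n → (cv A B).Point) (X Z : Fin n → K), (∀ j, IsX (S j) (X j) (Z j)) →
      ∀ (T : (cv A B).Point) (U V : K), IsX T U V →
      (eval₂ (aeval (asg A B X Z)).toRingHom ![U, V] G = 0 ↔
        ∃ ε : Fin n → ℤ, (∀ j, ε j = 1 ∨ ε j = -1) ∧ ∑ j, ε j • S j = T) := by
  induction n with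
  | zero =>
    refine ⟨1, X 1, isHomogeneous_X _ _, ?_⟩
    intro K _ _ _ A B _ S X Z _ T U V hT
    rw [eval₂_X]
    change V = 0 ↔ _
    rw [isX_zero_iff T U V hT]
    constructor
    · intro h
      exact ⟨fun _ => 1, fun j => j.elim0, by simp [h]⟩
    · rintro ⟨ε, _, h⟩
      simpa using h.symm
  | succ n ih =>
    obtain ⟨d, G, hG, hGG⟩ := ih
    let ι : MvPolynomial (Fin 2 ⊕ Fin n × Fin 2) ℤ →ₐ[ℤ]
        MvPolynomial (Fin 2 ⊕ Fin (n + 1) × Fin 2) ℤ :=
      rename (Sum.map id (Prod.map Fin.castSucc id))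
    obtain ⟨N, hN, hNN⟩ := normForm' d (map ι.toRingHom G) (hG.map _)
    let a : MvPolynomial (Fin 2) (MvPolynomial (Fin 2 ⊕ Fin (n + 1) × Fin 2) ℤ) :=
      C (X (Sum.inl 0))
    let b : MvPolynomial (Fin 2) (MvPolynomial (Fin 2 ⊕ Fin (n + 1) × Fin 2) ℤ) :=
      C (X (Sum.inl 1))
    let x : MvPolynomial (Fin 2) (MvPolynomial (Fin 2 ⊕ Fin (n + 1) × Fin 2) ℤ) :=
      C (X (Sum.inr (Fin.last n, 0)))
    let z : MvPolynomial (Fin 2) (MvPolynomial (Fin 2 ⊕ Fin (n + 1) × Fin 2) ℤ) :=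
      C (X (Sum.inr (Fin.last n, 1)))
    let g : Fin 3 → MvPolynomial (Fin 2) (MvPolynomial (Fin 2 ⊕ Fin (n + 1) × Fin 2) ℤ) :=
      ![c0 (X 0) (X 1) x z, c1 a b (X 0) (X 1) x z, c2 a b (X 0) (X 1) x z]
    have ha : a.IsHomogeneous 0 := isHomogeneous_C _ _
    have hb : b.IsHomogeneous 0 := isHomogeneous_C _ _
    have hx : x.IsHomogeneous 0 := isHomogeneous_C _ _
    have hz : z.IsHomogeneous 0 := isHomogeneous_C _ _
    have h0 : (X 0 : MvPolynomial (Fin 2)
      (MvPolynomial (Fin 2 ⊕ Fin (n + 1) × Fin 2) ℤ)).IsHomogeneous 1 := isHomogeneous_X _ _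
    have h1 : (X 1 : MvPolynomial (Fin 2)
      (MvPolynomial (Fin 2 ⊕ Fin (n + 1) × Fin 2) ℤ)).IsHomogeneous 1 := isHomogeneous_X _ _
    have h2 : (2 : MvPolynomial (Fin 2)
      (MvPolynomial (Fin 2 ⊕ Fin (n + 1) × Fin 2) ℤ)).IsHomogeneous 0 := isHomogeneous_C _ 2
    have h4 : (4 : MvPolynomial (Fin 2)
      (MvPolynomial (Fin 2 ⊕ Fin (n + 1) × Fin 2) ℤ)).IsHomogeneous 0 := isHomogeneous_C _ 4
    have hg : ∀ i, (g i).IsHomogeneous 2 := by
      intro i
      fin_cases i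
      · exact ((h0.mul hz).sub (hx.mul h1)).pow 2
      · exact ((h2.mul ((h0.mul hz).add (hx.mul h1))).mul
          ((h0.mul hx).add (ha.mul (h1.mul hz)))).add ((h4.mul hb).mul ((h1.mul hz).pow 2))
      · exact (((h0.mul hx).sub (ha.mul (h1.mul hz))).pow 2).sub
          (((h4.mul hb).mul (h1.mul hz)).mul ((h0.mul hz).add (hx.mul h1)))
    refine ⟨2 * d, bind₁ g N, hN.aeval g hg, ?_⟩
    intro K _ _ _ A B hAB S X Z hS T U V hT
    obtain ⟨t, ht, hU, hV⟩ := isX_scale T U V hT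
    obtain ⟨q, hq, hX, hZ⟩ := isX_scale (S (Fin.last n)) (X (Fin.last n)) (Z (Fin.last n))
      (hS (Fin.last n))
    obtain ⟨k, hk, e2, e1, e0⟩ := hadd K A B hAB T (S (Fin.last n))
    set φ : MvPolynomial (Fin 2 ⊕ Fin (n + 1) × Fin 2) ℤ →+* K :=
      (aeval (asg A B X Z)).toRingHom with hφ
    have hφX : ∀ i, φ (MvPolynomial.X i) = asg A B X Z i := fun i => aeval_X _ _
    have hι : φ.comp ι.toRingHom =
        (aeval (asg A B (X ∘ Fin.castSucc) (Z ∘ Fin.castSucc))).toRingHom := by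
      refine MvPolynomial.ringHom_ext (fun r => ?_) fun i => ?_
      · simp
      · change φ (rename _ (MvPolynomial.X i)) = aeval _ (MvPolynomial.X i)
        rw [rename_X, hφX, aeval_X]
        rcases i with i | ⟨j, i⟩
        · rfl
        · rfl
    set Q := S (Fin.last n) with hQ
    have hv : (fun i => eval₂ φ ![U, V] (g i)) = fun i => ((t * q) ^ 2 * k) *
        ![(T + Q).xRep 1 * (T - Q).xRep 1,
          (T + Q).xRep 0 * (T - Q).xRep 1 + (T - Q).xRep 0 * (T + Q).xRep 1,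
          (T + Q).xRep 0 * (T - Q).xRep 0] i := by
      funext i
      have ea : eval₂ φ ![U, V] a = A := by
        change eval₂ φ ![U, V] (C _) = A
        rw [eval₂_C, hφX]; rfl
      have eb : eval₂ φ ![U, V] b = B := by
        change eval₂ φ ![U, V] (C _) = B
        rw [eval₂_C, hφX]; rfl
      have ex : eval₂ φ ![U, V] x = q * Q.xRep 0 := by
        change eval₂ φ ![U, V] (C _) = _
        rw [eval₂_C, hφX, ← hX]; rfl
      have ez : eval₂ φ ![U, V] z = q * Q.xRep 1 := by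
        change eval₂ φ ![U, V] (C _) = _
        rw [eval₂_C, hφX, ← hZ]; rfl
      have eU : eval₂ φ ![U, V] (MvPolynomial.X 0) = t * T.xRep 0 := by
        rw [eval₂_X, ← hU]; rfl
      have eV : eval₂ φ ![U, V] (MvPolynomial.X 1) = t * T.xRep 1 := by
        rw [eval₂_X, ← hV]; rfl
      have e2' : eval₂ φ ![U, V] 2 = 2 := by
        rw [← coe_eval₂Hom, map_ofNat]
      have e4' : eval₂ φ ![U, V] 4 = 4 := by
        rw [← coe_eval₂Hom, map_ofNat]
      fin_cases i
      · change eval₂ φ ![U, V] (c0 _ _ _ _) = _ * ((T + Q).xRep 1 * (T - Q).xRep 1)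
        rw [mul_assoc, ← e0, c0, c0, eval₂_pow, eval₂_sub, eval₂_mul, eval₂_mul, ex, ez, eU, eV]
        ring
      · change eval₂ φ ![U, V] (c1 _ _ _ _ _ _) = _ *
          ((T + Q).xRep 0 * (T - Q).xRep 1 + (T - Q).xRep 0 * (T + Q).xRep 1)
        have e1' : k * ((T + Q).xRep 0 * (T - Q).xRep 1 + (T - Q).xRep 0 * (T + Q).xRep 1) =
            c1 A B (T.xRep 0) (T.xRep 1) (Q.xRep 0) (Q.xRep 1) := by
          rw [e1]; ring
        rw [mul_assoc, e1', c1, c1]
        simp only [eval₂_add, eval₂_mul, eval₂_pow, ex, ez, eU, eV, ea, eb, e2', e4']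
        ring
      · change eval₂ φ ![U, V] (c2 _ _ _ _ _ _) = _ * ((T + Q).xRep 0 * (T - Q).xRep 0)
        rw [mul_assoc, ← e2, c2, c2]
        simp only [eval₂_add, eval₂_sub, eval₂_mul, eval₂_pow, ex, ez, eU, eV, ea, eb, e4']
        ring
    have hprod : eval₂ φ ![U, V] (bind₁ g N) = ((t * q) ^ 2 * k) ^ d *
        (eval₂ (φ.comp ι.toRingHom) ![(T + Q).xRep 0, (T + Q).xRep 1] G *
          eval₂ (φ.comp ι.toRingHom) ![(T - Q).xRep 0, (T - Q).xRep 1] G) := by
      have h := eval₂Hom_bind₁ φ ![U, V] g N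
      rw [coe_eval₂Hom, coe_eval₂Hom] at h
      rw [h, hv, eval_smul N hN, hNN, eval₂_map, eval₂_map]
    have hsum : ∀ (ε : Fin (n + 1) → ℤ), ∑ j, ε j • S j =
        ∑ j : Fin n, ε (Fin.castSucc j) • (S ∘ Fin.castSucc) j + ε (Fin.last n) • Q := by
      intro ε
      rw [Fin.sum_univ_castSucc]
      rfl
    have hih := hGG K A B hAB (S ∘ Fin.castSucc) (X ∘ Fin.castSucc) (Z ∘ Fin.castSucc)
      (fun j => hS _)
    have hc : ((t * q) ^ 2 * k) ^ d ≠ 0 :=
      pow_ne_zero _ (mul_ne_zero (pow_ne_zero _ (mul_ne_zero ht hq)) hk)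
    rw [hprod, hι, mul_eq_zero, or_iff_right hc, mul_eq_zero, hih _ _ _ (isX_self (T + Q)),
      hih _ _ _ (isX_self (T - Q))]
    constructor
    · rintro (⟨ε, hε, h⟩ | ⟨ε, hε, h⟩)
      · refine ⟨Fin.snoc (α := fun _ => ℤ) ε (-1), fun j => ?_, ?_⟩
        · refine Fin.lastCases ?_ (fun j => ?_) j
          · right; simp
          · simpa using hε j
        · rw [hsum]
          simp only [Fin.snoc_castSucc, Fin.snoc_last]
          rw [h]
          abel
      · refine ⟨Fin.snoc (α := fun _ => ℤ) ε 1, fun j => ?_, ?_⟩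
        · refine Fin.lastCases ?_ (fun j => ?_) j
          · left; simp
          · simpa using hε j
        · rw [hsum]
          simp only [Fin.snoc_castSucc, Fin.snoc_last]
          rw [h]
          abel
    · rintro ⟨ε, hε, h⟩
      rw [hsum] at h
      rcases hε (Fin.last n) with h1 | h1
      · right
        refine ⟨fun j => ε (Fin.castSucc j), fun j => hε _, ?_⟩
        rw [h1] at h
        rw [← h]
        abel
      · left
        refine ⟨fun j => ε (Fin.castSucc j), fun j => hε _, ?_⟩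
        rw [h1] at h
        rw [← h]
        abel

theorem kum (hadd : S_ADDSUB) : S_KUM := by
  intro n
  rcases n with _ | n
  · refine ⟨0, ?_⟩
    intro K _ _ _ A B _ S X Z _
    simp
  · obtain ⟨d, G, hG, hGG⟩ := main hadd n
    let ι : MvPolynomial (Fin 2 ⊕ Fin n × Fin 2) ℤ →ₐ[ℤ]
        MvPolynomial (Fin 2 ⊕ Fin (n + 1) × Fin 2) ℤ :=
      rename (Sum.map id (Prod.map Fin.castSucc id))
    refine ⟨eval₂ ι.toRingHom
      ![X (Sum.inr (Fin.last n, 0)), X (Sum.inr (Fin.last n, 1))] G, ?_⟩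
    intro K _ _ _ A B hAB S X Z hS
    have h := hGG K A B hAB (S ∘ Fin.castSucc) (X ∘ Fin.castSucc) (Z ∘ Fin.castSucc)
      (fun j => hS _) (S (Fin.last n)) _ _ (hS (Fin.last n))
    set φ : MvPolynomial (Fin 2 ⊕ Fin (n + 1) × Fin 2) ℤ →+* K :=
      (aeval (asg A B X Z)).toRingHom with hφ
    have hφX : ∀ i, φ (MvPolynomial.X i) = asg A B X Z i := fun i => aeval_X _ _
    have hι : φ.comp ι.toRingHom =
        (aeval (asg A B (X ∘ Fin.castSucc) (Z ∘ Fin.castSucc))).toRingHom := by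
      refine MvPolynomial.ringHom_ext (fun r => ?_) fun i => ?_
      · simp
      · change φ (rename _ (MvPolynomial.X i)) = aeval _ (MvPolynomial.X i)
        rw [rename_X, hφX, aeval_X]
        rcases i with i | ⟨j, i⟩
        · rfl
        · rfl
    change φ (eval₂ ι.toRingHom _ G) = 0 ↔ _
    rw [eval₂_comp_left, hι]
    have hv : (φ ∘ ![MvPolynomial.X (Sum.inr (Fin.last n, 0)),
        MvPolynomial.X (Sum.inr (Fin.last n, 1))]) = ![X (Fin.last n), Z (Fin.last n)] := by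
      funext i
      fin_cases i
      · exact hφX _
      · exact hφX _
    rw [hv, h]
    constructor
    · rintro ⟨ε, hε, he⟩
      refine ⟨Fin.snoc (α := fun _ => ℤ) ε (-1), fun j => ?_, ?_⟩
      · refine Fin.lastCases ?_ (fun j => ?_) j
        · right; simp
        · simpa using hε j
      · rw [Fin.sum_univ_castSucc]
        simp only [Fin.snoc_castSucc, Fin.snoc_last]
        change ∑ j, ε j • (S ∘ Fin.castSucc) j + _ = _
        rw [he]
        abel
    · rintro ⟨ε, hε, he⟩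
      rw [Fin.sum_univ_castSucc] at he
      refine ⟨fun j => -(ε (Fin.last n) * ε (Fin.castSucc j)), fun j => ?_, ?_⟩
      · rcases hε (Fin.last n) with h1 | h1 <;> rcases hε (Fin.castSucc j) with h2 | h2 <;>
          simp [h1, h2]
      · have h3 : ∑ j, -(ε (Fin.last n) * ε (Fin.castSucc j)) • (S ∘ Fin.castSucc) j =
            -(ε (Fin.last n) • ∑ j : Fin n, ε (Fin.castSucc j) • S (Fin.castSucc j)) := by
          rw [Finset.smul_sum, ← Finset.sum_neg_distrib]
          refine Finset.sum_congr rfl fun j _ => ?_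
          rw [neg_smul, mul_smul]
          rfl
        rw [h3, eq_neg_of_add_eq_zero_left he, smul_neg, neg_neg, ← mul_smul]
        rcases hε (Fin.last n) with h1 | h1 <;> simp [h1]

end Pool.Agent.W591.EZ
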